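import Mathlib

set_option autoImplicit false
open scoped InnerProductSpace

namespace Pool.Agent.Results.MP_c48ca6_an.Point

variable {H : Type} [NormedAddCommGroup H] [InnerProductSpace ℝ H]

/-- normal cone of `A` at `x` -/
def normalCone (A : Set H) (x : H) : Set H := {v | ∀ a ∈ A, ⟪a - x, v⟫_ℝ ≤ 0}

/-- `A` is `α`-sharp with respect to `u` -/
def Sharp (A : Set H) (α : ℝ) (u : H) : Prop :=
  ∀ x ∈ A, u ∉ normalCone A x → α ≤ Metric.infDist u (normalCone A x)

/-- `A` is polyhedral -/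
def Polyhedral (A : Set H) : Prop :=
  ∃ (m : ℕ) (a : Fin m → H) (b : Fin m → ℝ), 1 ≤ m ∧ A = {x | ∀ j, ⟪a j, x⟫_ℝ ≤ b j}

/-- the real Hilbert space `ℓ²(ℕ)` -/
abbrev L2 : Type := lp (fun _ : ℕ => ℝ) 2

theorem result : ∃ (A : Set L2) (α : ℝ), A.Nonempty ∧ IsClosed A ∧ Convex ℝ A ∧ 0 < α ∧
    (∀ u : L2, ‖u‖ = 1 → Sharp A α u) ∧ ¬ Polyhedral A := by
  refine ⟨{0}, 1, ⟨0, rfl⟩, isClosed_singleton, convex_singleton _, one_pos, ?_, ?_⟩
  · rintro u - x rfl hu
    exact absurd (by rintro a rfl; simp) hu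
  · rintro ⟨m, a, b, -, h⟩
    set E : Fin (m + 1) → L2 := fun j => lp.single 2 (j : ℕ) (1 : ℝ)
    have hE : Orthonormal ℝ E := by
      rw [orthonormal_iff_ite]
      intro i k
      simp only [E]
      rw [lp.inner_single_left]
      by_cases h : i = k
      · simp [h]
      · rw [lp.single_apply_ne _ _ _ (fun h' => h (Fin.ext h'))]; simp [h]
    set φ : (Fin (m + 1) → ℝ) →ₗ[ℝ] (Fin m → ℝ) :=
      LinearMap.pi fun s => (innerSL ℝ (a s)).toLinearMap ∘ₗ Fintype.linearCombination ℝ E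
    obtain ⟨c, hc, hc0⟩ := (Submodule.ne_bot_iff _).1
      (LinearMap.ker_ne_bot_of_finrank_lt (f := φ) (by simp))
    have h0 : (0 : L2) ∈ {x : L2 | ∀ j, ⟪a j, x⟫_ℝ ≤ b j} := h ▸ rfl
    have h1 : (∑ i, c i • E i) ∈ ({0} : Set L2) := by
      rw [h]
      intro j
      have e : ⟪a j, ∑ i, c i • E i⟫_ℝ = 0 := by
        have := congrFun (LinearMap.mem_ker.1 hc) j
        simpa [φ, Fintype.linearCombination_apply] using this
      rw [e]; simpa using h0 j
    exact hc0 (funext (Fintype.linearIndependent_iff.1 hE.linearIndependent c h1))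

end Pool.Agent.Results.MP_c48ca6_an.Point
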